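import Pool.Agent.helper47.EIF.Spec

/-!
# Project eif (MP_f6e9a2_nt), row WSQ
-/

set_option autoImplicit false

open Finset

namespace Pool.Agent.EIF

theorem WSQ_cell (p : ℕ) [Fact p.Prime] (S : Finset (ZMod p)) (L j : ℕ) (hL : 0 < L) :
    (S.filter fun s => s.val / L = j).card ≤ L := by
  have h1 : (S.filter fun s => s.val / L = j).card ≤ (Ico (j * L) (j * L + L)).card := by
    apply Finset.card_le_card_of_injOn (fun s : ZMod p => s.val)
    · intro s hs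
      have h2 : s.val / L = j := (Finset.mem_filter.1 hs).2
      rw [Finset.coe_Ico, Set.mem_Ico]
      constructor
      · rw [← h2]
        exact Nat.div_mul_le_self _ _
      · rw [← h2]
        exact Nat.lt_div_mul_add hL
    · intro s _ s' _ h
      exact ZMod.val_injective p h
  rwa [Nat.card_Ico, Nat.add_sub_cancel_left] at h1

/-- row WSQ -/
theorem WSQ (hMAX : Pool.Agent.PJ.MAX_stmt) (hWNU : WNU_stmt) (hMO0 : MO0_stmt) (hNUG : Pool.Agent.PJ.NUG_stmt)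
    (hNUS : Pool.Agent.SPI.NUS_stmt) (hHOL : Pool.Agent.SPI.HOL_stmt) : WSQ_stmt := by
  intro p hp χ hχ k h U n T S hk hU hn hh hnp hT
  have hp0 : 0 < p := hp.out.pos
  have hpr : (0 : ℝ) < p := by exact_mod_cast hp0
  have hW1 : 1 ≤ 2 ^ n := Nat.one_le_two_pow
  have h2U : 2 * U ≤ h := le_trans (Nat.le_mul_of_pos_left _ hW1) hn
  have h2n : 2 ^ n ≤ h := le_trans (Nat.le_mul_of_pos_right _ (by omega)) hn
  have hh0 : 0 < h := by omega
  have hUp : 2 * U < p := by omega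
  have hnu := hWNU p χ k h U n S hk hUp hn
  have hhol := hHOL p (fun x => (Pool.Agent.SPI.nu S (2 * h) U x : ℝ))
    (fun x => Pool.Agent.PJ.mj k n (c0 χ x)) k hk (fun x => Nat.cast_nonneg _) (fun x => (hMAX k n _ hk).1)
  have hnus := hNUS p S (2 * h) U hUp
  have hng := hNUG p S (2 * h) U T ((2 * h : ℕ) : ℝ) hU (by omega) (by omega) hT
    (fun j => by exact_mod_cast WSQ_cell p S (2 * h) j (by omega))
  have hmo := hMO0 p χ hχ k n hk (by omega)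
  have hs0 : 0 ≤ ∑ t ∈ S, Wc χ h t := Finset.sum_nonneg fun _ _ => norm_nonneg _
  have hA : (U : ℝ) * (2 : ℝ) ^ n * ∑ t ∈ S, Wc χ h t ≥ 0 := by positivity
  have hB : ∑ x : ZMod p, (Pool.Agent.SPI.nu S (2 * h) U x : ℝ) = 2 * (h : ℝ) * U * S.card := by
    rw [hnus]
    push_cast
    ring
  have hC : ∑ x : ZMod p, (Pool.Agent.SPI.nu S (2 * h) U x : ℝ) ^ 2 ≤
      10 ^ 4 * (2 * (h : ℝ) * U * S.card) ^ 2 / p + 10 ^ 5 * T * (2 * h) * (2 * (h : ℝ) * U * S.card) := by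
    refine hng.trans (le_of_eq ?_)
    push_cast
    ring
  have hsq : ((2 : ℝ) ^ n) ^ k ≤ Real.sqrt p := by
    apply Real.le_sqrt_of_sq_le
    rw [← pow_mul, mul_comm k 2]
    exact_mod_cast hnp
  have hD : ∑ x : ZMod p, Pool.Agent.PJ.mj k n (c0 χ x) ^ (2 * k) ≤
      (2 * ((n : ℝ) + 1)) ^ (2 * k + 1) * (((k : ℝ) ^ (2 * k) + 2 * k) * ((2 : ℝ) ^ n) ^ k * p) := by
    refine hmo.trans (mul_le_mul_of_nonneg_left ?_ (by positivity))
    have h1 : ((2 : ℝ) ^ n) ^ (2 * k) * (2 * k * Real.sqrt p) ≤ 2 * k * ((2 : ℝ) ^ n) ^ k * p := by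
      have h2 : ((2 : ℝ) ^ n) ^ (2 * k) = ((2 : ℝ) ^ n) ^ k * ((2 : ℝ) ^ n) ^ k := by
        rw [← pow_add, two_mul]
      have h3 : Real.sqrt p * Real.sqrt p = p := Real.mul_self_sqrt hpr.le
      calc ((2 : ℝ) ^ n) ^ (2 * k) * (2 * k * Real.sqrt p) =
          (2 * k * ((2 : ℝ) ^ n) ^ k * Real.sqrt p) * ((2 : ℝ) ^ n) ^ k := by rw [h2]; ring
        _ ≤ (2 * k * ((2 : ℝ) ^ n) ^ k * Real.sqrt p) * Real.sqrt p :=
            mul_le_mul_of_nonneg_left hsq (by positivity)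
        _ = 2 * k * ((2 : ℝ) ^ n) ^ k * (Real.sqrt p * Real.sqrt p) := by ring
        _ = _ := by rw [h3]
    calc (k : ℝ) ^ (2 * k) * ((2 : ℝ) ^ n) ^ k * p + ((2 : ℝ) ^ n) ^ (2 * k) * (2 * k * Real.sqrt p) ≤
        (k : ℝ) ^ (2 * k) * ((2 : ℝ) ^ n) ^ k * p + 2 * k * ((2 : ℝ) ^ n) ^ k * p := by linarith
      _ = _ := by ring
  have hg0 : 0 ≤ ∑ x : ZMod p, Pool.Agent.PJ.mj k n (c0 χ x) ^ (2 * k) :=
    Finset.sum_nonneg fun x _ => pow_nonneg (hMAX k n _ hk).1 _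
  have hf0 : 0 ≤ ∑ x : ZMod p, (Pool.Agent.SPI.nu S (2 * h) U x : ℝ) ^ 2 :=
    Finset.sum_nonneg fun x _ => sq_nonneg _
  refine (pow_le_pow_left₀ hA hnu _).trans (hhol.trans ?_)
  rw [hB]
  have hE : 0 ≤ (2 * (h : ℝ) * U * S.card) ^ (2 * k - 2) := by positivity
  exact mul_le_mul (mul_le_mul_of_nonneg_left hC hE) hD hg0
    (mul_nonneg hE (hf0.trans hC))

end Pool.Agent.EIF
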